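import Mathlib
import Pool.Agent.H594.ML.Torus
import Pool.Agent.H594.ML.Exc

set_option autoImplicit false
set_option linter.unusedSectionVars false

/-!
# Heights of the terms of sums of elements close to a group of finite rank
-/

namespace Pool.Agent.H594.HT

open Finset MvPolynomial
open Pool.Agent.H594.ML
open Pool.Agent.Helper259.AbsHt Pool.Agent.Y215.SK
open Pool.Agent.Y215.AF Pool.Agent.W235.RM Pool.Agent.Y215.SP
open Pool.Agent.Q204.UF Pool.Agent.Q51.UF Pool.Agent.H533R3.SL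
open Pool.Agent.TH182.VD (CI)

variable {n : ℕ}

/-- the coefficients of the linear form -/
noncomputable def cf (c : Fin n → Qbar) (s : Qbar) : Fin (n + 1) → Qbar := Fin.cons (-s) c

/-- the linear form -/
noncomputable def lin (c : Fin n → Qbar) (s : Qbar) : Fin 1 → MvPolynomial (Fin (n + 1)) Qbar :=
  fun _ => ∑ a, C (cf c s a) * X a

theorem lin_homog (c : Fin n → Qbar) (s : Qbar) (i : Fin 1) : (lin c s i).IsHomogeneous 1 := by
  unfold lin
  refine MvPolynomial.IsHomogeneous.sum _ _ _ fun a _ => ?_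
  exact MvPolynomial.isHomogeneous_C_mul_X _ _

theorem degree_one {α : Fin (n + 1) →₀ ℕ} (h : α.degree = 1) : ∃ a, α = Finsupp.single a 1 := by
  classical
  rw [Finsupp.degree_eq_sum] at h
  obtain ⟨a, ha⟩ : ∃ a, α a ≠ 0 := by
    by_contra hcon
    push Not at hcon
    rw [Finset.sum_eq_zero fun a _ => hcon a] at h
    exact zero_ne_one h
  refine ⟨a, ?_⟩
  have h1 := Finset.add_sum_erase Finset.univ (fun a => α a) (Finset.mem_univ a)
  rw [h] at h1
  have h2 : α a = 1 := by omega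
  have h3 : ∑ b ∈ Finset.univ.erase a, α b = 0 := by omega
  ext b
  by_cases hb : b = a
  · rw [hb, h2, Finsupp.single_eq_same]
  · rw [Finsupp.single_eq_of_ne hb]
    exact Finset.sum_eq_zero_iff.1 h3 b (Finset.mem_erase.2 ⟨hb, Finset.mem_univ b⟩)

theorem coeff_lin (c : Fin n → Qbar) (s : Qbar) (i : Fin 1) (a : Fin (n + 1)) :
    coeff (Finsupp.single a 1) (lin c s i) = cf c s a := by
  classical
  unfold lin
  rw [coeff_sum, Finset.sum_eq_single a]
  · rw [coeff_C_mul, coeff_X, if_pos rfl, mul_one]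
  · intro b _ hb
    rw [coeff_C_mul, coeff_X, if_neg, mul_zero]
    intro h
    exact hb (Finsupp.single_left_injective one_ne_zero h)
  · intro h
    exact absurd (Finset.mem_univ a) h

theorem hA_lin (c : Fin n → Qbar) (s : Qbar) :
    hA (cof (n := n) (fun _ : Fin 1 => 1) (lin c s)) ≤ Pool.Agent.Y215.SK.h1 s + ∑ j, Pool.Agent.Y215.SK.h1 (c j) := by
  classical
  have h0 : ∀ x : CI n (fun _ : Fin 1 => 1), ∃ a, x.2.1 = Finsupp.single a 1 := fun x =>
    degree_one x.2.2
  choose f hf using h0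
  have e : (fun o : Option (CI n (fun _ : Fin 1 => 1)) => o.elim (1 : Qbar)
      (cof (n := n) (fun _ : Fin 1 => 1) (lin c s))) =
      (fun o : Option (Fin (n + 1)) => o.elim (1 : Qbar) (cf c s)) ∘ Option.map f := by
    funext o
    cases o with
    | none => rfl
    | some x =>
      show coeff x.2.1 (lin c s x.1) = cf c s (f x)
      rw [hf x, coeff_lin]
  unfold hA
  rw [e]
  refine (absLogHeight_comp_le _ _).trans ((height_le_sum _).trans ?_)
  rw [Fintype.sum_option, Fin.sum_univ_succ]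
  show Pool.Agent.Y215.SK.h1 1 + (Pool.Agent.Y215.SK.h1 (-s) + ∑ j, Pool.Agent.Y215.SK.h1 (c j)) ≤ _
  rw [h1_one, zero_add, h1_neg]

/-- the multipliers -/
noncomputable def xx (x : Fin n → Qbar) : Fin (n + 1) → Qbar := Fin.cons 1 x

/-- the diagonal vectors -/
noncomputable def dg (x : Fin n → Qbar) : Fin (n + 1) → Fin (n + 1) → Qbar :=
  fun j a => if j = a then xx x a else 0

theorem dg_sum (x : Fin n → Qbar) (a : Fin (n + 1)) : ∑ j, dg x j a = xx x a := by
  unfold dg
  rw [Finset.sum_eq_single a]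
  · rw [if_pos rfl]
  · intro b _ hb
    rw [if_neg hb]
  · intro h
    exact absurd (Finset.mem_univ a) h

theorem cur_dg (x : Fin n → Qbar) (l : Fin (n + 1) → ℕ) (a : Fin (n + 1)) :
    cur (dg x) l a = Polynomial.C (xx x a) * Polynomial.X ^ l a := by
  unfold cur dg
  rw [Finset.sum_eq_single a]
  · rw [if_pos rfl]
  · intro b _ hb
    rw [if_neg hb, Polynomial.C_0, zero_mul]
  · intro h
    exact absurd (Finset.mem_univ a) h

theorem no_curve (c x : Fin n → Qbar) (s : Qbar)
    (hne : ∀ I : Finset (Fin n), I.Nonempty → ∑ j ∈ I, c j * x j ≠ 0) (l : Fin (n + 1) → ℕ) :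
    ¬ CurveOn (lin c s) (dg x) l := by
  classical
  rintro ⟨h1, i, i', h2⟩
  have h3 := h1 0
  unfold lin at h3
  rw [map_sum] at h3
  simp only [map_mul, aeval_C, aeval_X, cur_dg, Polynomial.algebraMap_eq] at h3
  have hall : ∀ j : Fin n, l j.succ = l 0 := by
    intro j
    by_contra hj
    have h4 := congrArg (fun p : Polynomial Qbar => p.coeff (l j.succ)) h3
    simp only [Polynomial.finsetSum_coeff, Polynomial.coeff_zero] at h4
    have h5 : ∀ a, (Polynomial.C (cf c s a) * (Polynomial.C (xx x a) * Polynomial.X ^ l a)).coeff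
        (l j.succ) = if l a = l j.succ then cf c s a * xx x a else 0 := by
      intro a
      rw [Polynomial.coeff_C_mul, Polynomial.coeff_C_mul, Polynomial.coeff_X_pow]
      by_cases h : l j.succ = l a
      · rw [if_pos h, if_pos h.symm, mul_one]
      · rw [if_neg h, if_neg (fun h' => h h'.symm), mul_zero, mul_zero]
    simp only [h5] at h4
    rw [Fin.sum_univ_succ, if_neg (fun h => hj h.symm), zero_add, ← Finset.sum_filter] at h4
    exact hne (Finset.univ.filter fun a => l a.succ = l j.succ)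
      ⟨j, Finset.mem_filter.2 ⟨Finset.mem_univ j, rfl⟩⟩ h4
  have hl : ∀ a, l a = l 0 := fun a => Fin.cases rfl hall a
  apply h2
  rw [cur_dg, cur_dg, dg_sum, dg_sum, hl i, hl i']
  ring

theorem aeval_lin (c x : Fin n → Qbar) (i : Fin 1) :
    aeval (xx x) (lin c (∑ j, c j * x j) i) = 0 := by
  unfold lin
  rw [map_sum]
  simp only [map_mul, aeval_C, aeval_X]
  rw [Fin.sum_univ_succ]
  show -(∑ j, c j * x j) * 1 + ∑ j, c j * x j = 0
  ring

/-- the identity matrix -/
noncomputable def idm (n : ℕ) : Fin (n + 1) → Fin (n + 1) → Qbar := fun j a => if j = a then 1 else 0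

theorem psum_idm (u : Fin (n + 1) → Qbarˣ) :
    Pool.Agent.Y215.SK.psum Finset.univ u (idm n) = fun a => (u a : Qbar) := by
  funext a
  unfold Pool.Agent.Y215.SK.psum idm
  rw [Finset.sum_eq_single a]
  · rw [if_pos rfl, mul_one]
  · intro b _ hb
    rw [if_neg hb, mul_zero]
  · intro h
    exact absurd (Finset.mem_univ a) h

/-- **Heights of the terms.** -/
theorem sum_heights (Γ : Subgroup Qbarˣ) (hΓ : Γ.FG) (n : ℕ) : ∃ C : ℝ, 0 ≤ C ∧
    ∀ (u : Fin n → Qbarˣ) (c : Fin n → Qbar), (∀ j, u j ∈ DivHull Γ) →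
      (∀ I : Finset (Fin n), I.Nonempty → ∑ j ∈ I, c j * (u j : Qbar) ≠ 0) →
      ∀ j, Pool.Agent.Y215.SK.h1 (u j : Qbar) ≤
        C * (1 + Pool.Agent.Y215.SK.h1 (∑ j, c j * (u j : Qbar)) + ∑ j, Pool.Agent.Y215.SK.h1 (c j)) := by
  classical
  obtain ⟨C, hC0, hC⟩ := gen_heights (n := n) (r := n + 1) (fun _ : Fin 1 => 1) 1 le_rfl
    (fun _ => le_rfl) Γ hΓ
  have hV0 : 0 ≤ hV (idm n) := absLogHeight_nonneg _
  refine ⟨C * (1 + hV (idm n)), by positivity, fun u c hu hne j => ?_⟩
  let x : Fin n → Qbar := fun j => (u j : Qbar)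
  have hps : Pool.Agent.Y215.SK.psum Finset.univ (homU u) (idm n) = xx x := by
    rw [psum_idm]
    funext a
    refine Fin.cases rfl (fun j => rfl) a
  have htw : tw (homU u) (idm n) = dg x := by
    funext j a
    unfold tw dg idm
    by_cases h : j = a
    · rw [if_pos h, if_pos h, mul_one, h]
      refine Fin.cases rfl (fun j => rfl) a
    · rw [if_neg h, if_neg h, mul_zero]
  have h1 := hC (lin c (∑ j, c j * x j)) (homU u) (idm n) (lin_homog _ _) (homU_hull Γ u hu)
    (by rw [hps]; exact cons_one_ne _) (fun i => by rw [hps]; exact aeval_lin c x i)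
    (fun l _ => by rw [htw]; exact no_curve c x _ hne l)
  rw [hps] at h1
  have h2 := h1_ratio_le (xx x) j.succ 0 one_ne_zero
  have h3 : xx x j.succ / xx x 0 = (u j : Qbar) := div_one _
  rw [h3] at h2
  refine h2.trans (h1.trans ?_)
  have h4 := hA_lin c (∑ j, c j * x j)
  have h5 : 0 ≤ Pool.Agent.Y215.SK.h1 (∑ j, c j * x j) := h1_nonneg _
  have h6 : 0 ≤ ∑ j, Pool.Agent.Y215.SK.h1 (c j) := Finset.sum_nonneg fun j _ => h1_nonneg _
  rw [mul_assoc]
  refine mul_le_mul_of_nonneg_left ?_ hC0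
  nlinarith [mul_nonneg hV0 h5, mul_nonneg hV0 h6]

/-- **The number of representations by sums of elements close to a group of finite rank.** -/
theorem sum_near (Γ : Subgroup Qbarˣ) (hΓ : Γ.FG) (n : ℕ) : ∃ (ε B : ℝ) (e : ℕ), 0 < ε ∧
    0 ≤ B ∧ ∀ (c : Fin n → Qbar) (s : Qbar),
      {x : Fin n → Qbar | (∀ j, ∃ u ∈ DivHull Γ, Pool.Agent.Y215.SK.h1 (x j / (u : Qbarˣ)) < ε) ∧
        ∑ j, c j * x j = s ∧ ∀ I : Finset (Fin n), I.Nonempty → ∑ j ∈ I, c j * x j ≠ 0}.Finite ∧
      ({x : Fin n → Qbar | (∀ j, ∃ u ∈ DivHull Γ, Pool.Agent.Y215.SK.h1 (x j / (u : Qbarˣ)) < ε) ∧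
        ∑ j, c j * x j = s ∧ ∀ I : Finset (Fin n), I.Nonempty →
        ∑ j ∈ I, c j * x j ≠ 0}.ncard : ℝ) ≤ B * (1 + Pool.Agent.Y215.SK.h1 s + ∑ j, Pool.Agent.Y215.SK.h1 (c j)) ^ e := by
  classical
  obtain ⟨B, e, hB0, hB⟩ := gen_near (n := n) (r := n + 1) (fun _ : Fin 1 => 1) 1 le_rfl
    (fun _ => le_rfl) Γ hΓ
  obtain ⟨ε₀, hε₀⟩ : ∃ ε₀, ε₀ = epsn ((1 + 1) ^ (n + 1)) / ((1 : ℕ) : ℝ) / 2 := ⟨_, rfl⟩
  have hε₀pos : 0 < ε₀ := by
    rw [hε₀]
    have := epsn_pos ((1 + 1) ^ (n + 1)) (Nat.one_le_pow _ _ (by omega))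
    positivity
  have hV0 : 0 ≤ hV (idm n) := absLogHeight_nonneg _
  refine ⟨ε₀ / (n + 1), B * (1 + hV (idm n)) ^ e, e, by positivity, by positivity,
    fun c s => ?_⟩
  rw [← hε₀] at hB
  obtain ⟨hfin, hcard⟩ := hB (lin c s) (idm n) (lin_homog c s)
  let Sol : Set (Fin n → Qbar) := {x : Fin n → Qbar |
    (∀ j, ∃ u ∈ DivHull Γ, Pool.Agent.Y215.SK.h1 (x j / (u : Qbarˣ)) < ε₀ / (n + 1)) ∧
    ∑ j, c j * x j = s ∧ ∀ I : Finset (Fin n), I.Nonempty → ∑ j ∈ I, c j * x j ≠ 0}
  let θ : (Fin n → Qbar) → Projectivization Qbar (Fin (n + 1) → Qbar) := fun x =>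
    Projectivization.mk Qbar (Fin.cons 1 x : Fin (n + 1) → Qbar) (cons_one_ne x)
  have hmaps : ∀ x ∈ Sol, θ x ∈ nearP (lin c s) Γ ε₀ (idm n) := by
    rintro x ⟨hx, hs, hne⟩
    choose u hu hux using hx
    have hx0 : ∀ j, x j ≠ 0 := by
      intro j h0
      apply hne {j} ⟨j, Finset.mem_singleton_self j⟩
      rw [Finset.sum_singleton, h0, mul_zero]
    let δ : Fin n → Qbar := fun j => x j / (u j : Qbar)
    have hδ : ∀ j, (u j : Qbar) * δ j = x j := fun j => mul_div_cancel₀ _ (u j).ne_zero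
    have hps : Pool.Agent.Y215.SK.psum Finset.univ (homU u) (fun j i =>
        (Fin.cons 1 δ : Fin (n + 1) → Qbar) j * idm n j i) = xx x := by
      funext a
      unfold Pool.Agent.Y215.SK.psum idm
      rw [Finset.sum_eq_single a]
      · beta_reduce
        rw [if_pos rfl, mul_one]
        refine Fin.cases ?_ (fun j => ?_) a
        · show ((1 : Qbarˣ) : Qbar) * 1 = 1
          simp
        · exact hδ j
      · intro b _ hb
        beta_reduce
        rw [if_neg hb, mul_zero, mul_zero]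
      · intro h
        exact absurd (Finset.mem_univ a) h
    have htw : tw (homU u) (fun j i => (Fin.cons 1 δ : Fin (n + 1) → Qbar) j * idm n j i) =
        dg x := by
      funext j a
      unfold tw dg idm
      beta_reduce
      by_cases h : j = a
      · rw [if_pos h, if_pos h, mul_one, h]
        refine Fin.cases ?_ (fun j => ?_) a
        · show ((1 : Qbarˣ) : Qbar) * 1 = 1
          simp
        · exact hδ j
      · rw [if_neg h, if_neg h, mul_zero, mul_zero]
    refine ⟨homU u, (Fin.cons 1 δ : Fin (n + 1) → Qbar), homU_hull Γ u hu, ?_, fun i => ?_, ?_, ?_⟩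
    · refine lt_of_le_of_lt (height_le_sum _) ?_
      rw [Fin.sum_univ_succ]
      show Pool.Agent.Y215.SK.h1 1 + ∑ j, Pool.Agent.Y215.SK.h1 (δ j) < ε₀
      rw [h1_one, zero_add]
      have h1 : ∑ j, Pool.Agent.Y215.SK.h1 (δ j) ≤ ∑ _j : Fin n, ε₀ / (n + 1) :=
        Finset.sum_le_sum fun j _ => (hux j).le
      rw [Finset.sum_const, Finset.card_univ, Fintype.card_fin, nsmul_eq_mul] at h1
      refine lt_of_le_of_lt h1 ?_
      rw [mul_div_assoc', div_lt_iff₀ (by positivity)]
      nlinarith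
    · rw [hps, ← hs]
      exact aeval_lin c x i
    · rw [htw]
      rintro J l ⟨k, hk0, hk⟩
      have hJ : J = Finset.univ := by
        rw [Finset.eq_univ_iff_forall]
        intro a
        by_contra ha
        have h1 := hk a
        rw [dg_sum, Finset.sum_eq_zero] at h1
        · have h2 : xx x a ≠ 0 := Fin.cases (one_ne_zero) (fun j => hx0 j) a
          exact (mul_ne_zero hk0 h2) h1.symm
        · intro j hj
          unfold dg
          rw [if_neg]
          rintro rfl
          exact ha hj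
      subst hJ
      have h2 : (fun j a => if j ∈ (Finset.univ : Finset (Fin (n + 1))) then dg x j a else 0) =
          dg x := by
        funext j a
        rw [if_pos (Finset.mem_univ j)]
      rw [h2]
      exact no_curve c x s hne l
    · rw [hps]
      exact ⟨cons_one_ne x, rfl⟩
  have hinj : Set.InjOn θ Sol := by
    intro x _ y _ hxy
    obtain ⟨k, hk⟩ := (Projectivization.mk_eq_mk_iff' Qbar _ _ (cons_one_ne x)
      (cons_one_ne y)).1 hxy
    have h0 := congrFun hk 0
    rw [Pi.smul_apply, Fin.cons_zero, Fin.cons_zero, smul_eq_mul, mul_one] at h0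
    rw [h0, one_smul] at hk
    funext i
    have := congrFun hk i.succ
    rw [Fin.cons_succ, Fin.cons_succ] at this
    exact this.symm
  have hfin' : Sol.Finite := Set.Finite.of_injOn hmaps hinj hfin
  refine ⟨hfin', ?_⟩
  have h1 := Set.ncard_le_ncard_of_injOn θ hmaps hinj hfin
  refine (le_trans (Nat.cast_le.2 h1) hcard).trans ?_
  have h4 := hA_lin c s
  have h5 : 0 ≤ Pool.Agent.Y215.SK.h1 s := h1_nonneg _
  have h6 : 0 ≤ ∑ j, Pool.Agent.Y215.SK.h1 (c j) := Finset.sum_nonneg fun j _ => h1_nonneg _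
  have h7 : 0 ≤ hA (cof (n := n) (fun _ : Fin 1 => 1) (lin c s)) := hA_nonneg _
  rw [mul_assoc, ← mul_pow]
  refine mul_le_mul_of_nonneg_left (pow_le_pow_left₀ (by linarith) ?_ _) hB0
  nlinarith [mul_nonneg hV0 h5, mul_nonneg hV0 h6]

end Pool.Agent.H594.HT
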